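import Mathlib
import Pool.Agent.X100.LogMod.Final

set_option autoImplicit false

namespace Pool.Agent.Results.MP_d8ee74_an.OptimalLogExponent

open Pool.Agent.X100.LogMod

/-- Every admissible exponent is at most `1 / n`. Together with the listed lower bound
`1 / n ≤ α*(n)` this gives `α*(n) = 1 / n` for every `n ≥ 2`. -/
theorem result (n : ℕ) (hn : 2 ≤ n) (α : ℝ) (h : Admissible n α) : α ≤ 1 / n :=
  main n hn α h

end Pool.Agent.Results.MP_d8ee74_an.OptimalLogExponent
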